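import Pool.Agent.H506R2.FPP

/-!
# A finite ordered set with the fixed point property whose iterated clique graphs do not collapse

Let `P` be the face poset of the hemicube (a regular cell decomposition of the projective plane):
4 vertices, 6 edges and 3 squares. Every order-preserving self-map of `P` has a fixed point (a
finite search). The comparability graph of `P` has a mod 2 cocycle (a function `w` on ordered pairs
of adjacent or equal vertices with `w x y + w y z = w x z` whenever `x, y, z` are pairwise adjacent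
or equal) that is no coboundary. The existence of such a cocycle passes from any graph to its clique
graph, while a graph with at most one vertex has none. So no iterated clique graph of the
comparability graph of `P` is a single vertex.
-/

set_option autoImplicit false

namespace Pool.Agent.Results.MP_c7efa6_co.ProjectivePlanePoset

/-- The clique graph of `G`: its vertices are the maximal cliques of `G` (maximal sets of pairwise
adjacent vertices); two distinct ones are adjacent if they share a vertex. -/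
def cliqueGraph {V : Type} (G : SimpleGraph V) :
    SimpleGraph {S : Set V // Maximal (fun S : Set V => G.IsClique S) S} where
  Adj S T := S ≠ T ∧ ∃ x, x ∈ S.1 ∧ x ∈ T.1
  symm := ⟨fun _ _ h => ⟨h.1.symm, h.2.imp fun _ hx => hx.symm⟩⟩
  loopless := ⟨fun _ h => h.1 rfl⟩

/-- The iterated clique graph `K^n(G)`, with its set of vertices. -/
def iterClique (n : ℕ) (G : Σ V : Type, SimpleGraph V) : Σ V : Type, SimpleGraph V :=
  (fun H : Σ V : Type, SimpleGraph V => ⟨_, cliqueGraph H.2⟩)^[n] G

/-- The comparability graph of an ordered set. -/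
def comparabilityGraph (P : Type) [PartialOrder P] : SimpleGraph P where
  Adj x y := x < y ∨ y < x
  symm := ⟨fun _ _ h => h.symm⟩
  loopless := ⟨fun x h => h.elim (lt_irrefl x) (lt_irrefl x)⟩

/-! ### Cocycles and the clique graph operator -/

/-- `G` has a mod 2 cocycle that is not a coboundary. -/
def HasCocycle {V : Type} (G : SimpleGraph V) : Prop :=
  ∃ w : V → V → ZMod 2,
    (∀ x y z, (x = y ∨ G.Adj x y) → (y = z ∨ G.Adj y z) → (x = z ∨ G.Adj x z) →
      w x y + w y z = w x z) ∧
    ¬ ∃ f : V → ZMod 2, ∀ x y, (x = y ∨ G.Adj x y) → w x y = f x + f y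

theorem exists_maximal {V : Type} (G : SimpleGraph V) (S : Set V) (hS : G.IsClique S) :
    ∃ T : {T : Set V // Maximal (fun T : Set V => G.IsClique T) T}, S ⊆ T.1 := by
  obtain ⟨T, hST, hT⟩ := zorn_subset_nonempty {T : Set V | G.IsClique T} (fun c hc hchain hne => by
    refine ⟨⋃₀ c, ?_, fun s hs => Set.subset_sUnion_of_mem hs⟩
    intro x hx y hy hxy
    obtain ⟨s, hs, hxs⟩ := hx
    obtain ⟨t, ht, hyt⟩ := hy
    rcases hchain.total hs ht with h | h
    · exact hc ht (h hxs) hyt hxy
    · exact hc hs hxs (h hyt) hxy) S hS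
  exact ⟨⟨T, hT⟩, hST⟩

theorem mem_rel {V : Type} {G : SimpleGraph V}
    (S : {S : Set V // Maximal (fun S : Set V => G.IsClique S) S}) {x y : V} (hx : x ∈ S.1)
    (hy : y ∈ S.1) : x = y ∨ G.Adj x y := by
  by_cases h : x = y
  · exact Or.inl h
  · exact Or.inr (S.2.1 hx hy h)

theorem zmod2_add_self (a : ZMod 2) : a + a = 0 := by
  revert a
  decide

theorem hasCocycle_cliqueGraph {V : Type} {G : SimpleGraph V} (h : HasCocycle G) :
    HasCocycle (cliqueGraph G) := by
  classical
  obtain ⟨w, hw, hnot⟩ := h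
  have hV : Nonempty V := by
    by_contra hV
    exact hnot ⟨fun _ => 0, fun x => (hV ⟨x⟩).elim⟩
  have w0 : ∀ x, w x x = 0 := fun x => by
    have := hw x x x (Or.inl rfl) (Or.inl rfl) (Or.inl rfl)
    simpa using this
  have wsymm : ∀ x y, (x = y ∨ G.Adj x y) → w y x = w x y := fun x y hxy => by
    have hyx : y = x ∨ G.Adj y x := hxy.imp Eq.symm fun h => h.symm
    have := hw x y x hxy hyx (Or.inl rfl)
    rw [w0] at this
    calc w y x = (w x y + w x y) + w y x := by rw [zmod2_add_self, zero_add]
      _ = w x y + (w x y + w y x) := by ring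
      _ = w x y := by rw [this, add_zero]
  -- every maximal clique is nonempty
  have hne : ∀ S : {S : Set V // Maximal (fun S : Set V => G.IsClique S) S}, ∃ x, x ∈ S.1 := by
    intro S
    by_contra hcon
    push Not at hcon
    obtain ⟨v⟩ := hV
    have h1 : G.IsClique ({v} : Set V) := Set.pairwise_singleton _ _
    have h2 : S.1 ⊆ {v} := fun x hx => (hcon x hx).elim
    exact hcon v (S.2.2 h1 h2 rfl)
  choose b hb using hne
  -- the common vertex
  let W : {S : Set V // Maximal (fun S : Set V => G.IsClique S) S} →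
      {S : Set V // Maximal (fun S : Set V => G.IsClique S) S} → ZMod 2 := fun S T =>
    if h : ∃ x, x ∈ S.1 ∧ x ∈ T.1 then w (b S) h.choose + w h.choose (b T) else 0
  have hW : ∀ S T, ∀ x, x ∈ S.1 → x ∈ T.1 → W S T = w (b S) x + w x (b T) := by
    intro S T x hxS hxT
    have hex : ∃ x, x ∈ S.1 ∧ x ∈ T.1 := ⟨x, hxS, hxT⟩
    simp only [W, dif_pos hex]
    obtain ⟨hyS, hyT⟩ := hex.choose_spec
    set y := hex.choose
    have e1 := hw (b S) x y (mem_rel S (hb S) hxS) (mem_rel S hxS hyS) (mem_rel S (hb S) hyS)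
    have e2 := hw x y (b T) (mem_rel S hxS hyS) (mem_rel T hyT (hb T)) (mem_rel T hxT (hb T))
    rw [← e1, ← e2]
    ring
  refine ⟨W, ?_, ?_⟩
  · have hrel : ∀ S T, (S = T ∨ (cliqueGraph G).Adj S T) → ∃ x, x ∈ S.1 ∧ x ∈ T.1 := by
      rintro S T (rfl | h)
      · exact ⟨b S, hb S, hb S⟩
      · exact h.2
    intro S T U hST hTU hSU
    obtain ⟨x, hxS, hxT⟩ := hrel S T hST
    obtain ⟨y, hyT, hyU⟩ := hrel T U hTU
    obtain ⟨z, hzS, hzU⟩ := hrel S U hSU
    rw [hW S T x hxS hxT, hW T U y hyT hyU, hW S U z hzS hzU]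
    have hxz := mem_rel S hxS hzS
    have hxy := mem_rel T hxT hyT
    have hyz := mem_rel U hyU hzU
    have e1 := hw (b S) x z (mem_rel S (hb S) hxS) hxz (mem_rel S (hb S) hzS)
    have e2 := hw x (b T) y (mem_rel T hxT (hb T)) (mem_rel T (hb T) hyT) hxy
    have e3 := hw y z (b U) hyz (mem_rel U hzU (hb U)) (mem_rel U hyU (hb U))
    have e4 := hw x y z hxy hyz hxz
    calc w (b S) x + w x (b T) + (w (b T) y + w y (b U))
        = w (b S) x + (w x (b T) + w (b T) y) + w y (b U) := by ring
      _ = w (b S) x + w x y + (w y z + w z (b U)) := by rw [e2, e3]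
      _ = w (b S) x + (w x y + w y z) + w z (b U) := by ring
      _ = (w (b S) x + w x z) + w z (b U) := by rw [e4]
      _ = w (b S) z + w z (b U) := by rw [e1]
  · rintro ⟨F, hF⟩
    apply hnot
    have hcl : ∀ x y, (x = y ∨ G.Adj x y) → ∃ S : {S : Set V //
        Maximal (fun S : Set V => G.IsClique S) S}, x ∈ S.1 ∧ y ∈ S.1 := by
      intro x y hxy
      have h1 : G.IsClique ({x, y} : Set V) := by
        rw [SimpleGraph.isClique_pair]
        intro hne
        exact hxy.resolve_left hne
      obtain ⟨T, hT⟩ := exists_maximal G _ h1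
      exact ⟨T, hT (by simp), hT (by simp)⟩
    choose Q hQ using fun x : V => hcl x x (Or.inl rfl)
    have hf : ∀ x S, x ∈ S.1 → F (Q x) + w (b (Q x)) x = F S + w (b S) x := by
      intro x S hxS
      have hxQ := (hQ x).1
      have e1 := hW (Q x) S x hxQ hxS
      have e2 := hF (Q x) S (by
        by_cases h : Q x = S
        · exact Or.inl h
        · exact Or.inr ⟨h, x, hxQ, hxS⟩)
      rw [e2] at e1
      have e3 := wsymm x (b S) (mem_rel S hxS (hb S))
      calc F (Q x) + w (b (Q x)) x
          = (F (Q x) + F S) + F S + w (b (Q x)) x := by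
            rw [add_assoc (F (Q x)), zmod2_add_self, add_zero]
        _ = (w (b (Q x)) x + w (b (Q x)) x) + (w x (b S) + F S) := by rw [e1]; ring
        _ = F S + w (b S) x := by rw [zmod2_add_self, zero_add, e3, add_comm]
    refine ⟨fun x => F (Q x) + w (b (Q x)) x, fun x y hxy => ?_⟩
    obtain ⟨S, hxS, hyS⟩ := hcl x y hxy
    change w x y = (F (Q x) + w (b (Q x)) x) + (F (Q y) + w (b (Q y)) y)
    rw [hf x S hxS, hf y S hyS]
    have e1 := hw x (b S) y (mem_rel S hxS (hb S)) (mem_rel S (hb S) hyS) hxy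
    rw [← e1, ← wsymm x (b S) (mem_rel S hxS (hb S))]
    calc w (b S) x + w (b S) y = (F S + F S) + (w (b S) x + w (b S) y) := by
          rw [zmod2_add_self, zero_add]
      _ = F S + w (b S) x + (F S + w (b S) y) := by ring

theorem HasCocycle.nontrivial {V : Type} {G : SimpleGraph V} (h : HasCocycle G) :
    Nontrivial V := by
  obtain ⟨w, hw, hnot⟩ := h
  by_contra hcon
  rw [not_nontrivial_iff_subsingleton] at hcon
  refine hnot ⟨fun _ => 0, fun x y _ => ?_⟩
  obtain rfl : x = y := Subsingleton.elim _ _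
  have := hw x x x (Or.inl rfl) (Or.inl rfl) (Or.inl rfl)
  simpa using this

theorem HasCocycle.iter {V : Type} {G : SimpleGraph V} (h : HasCocycle G) (n : ℕ) :
    HasCocycle (iterClique n ⟨V, G⟩).2 := by
  induction n with
  | zero => exact h
  | succ n ih =>
    unfold iterClique
    rw [Function.iterate_succ_apply']
    exact hasCocycle_cliqueGraph ih

/-! ### The face poset of the hemicube -/

/-- up-sets of the elements, as bit masks -/
def up : List ℕ := [7281, 7570, 7844, 8008, 6160, 5152, 3136, 3200, 5376, 6656, 1024, 2048, 4096]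

/-- down-sets of the elements, as bit masks -/
def dn : List ℕ := [1, 2, 4, 8, 19, 37, 73, 134, 266, 524, 1519, 2783, 4927]

/-- the covering pairs -/
def cov : List (ℕ × ℕ) := [(0, 4), (0, 5), (0, 6), (1, 4), (1, 7), (1, 8), (2, 5), (2, 7), (2, 9),
  (3, 6), (3, 8), (3, 9), (4, 11), (4, 12), (5, 10), (5, 12), (6, 10), (6, 11), (7, 10), (7, 11),
  (8, 10), (8, 12), (9, 11), (9, 12)]

/-- The face poset of the hemicube: `0, …, 3` are the vertices, `4, …, 9` the edges, `10, 11, 12`
the squares. -/
structure P where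
  /-- the number of the element -/
  v : Fin 13

/-- the order relation as a Boolean function -/
def leb (a b : ℕ) : Bool := (up.getD a 0).testBit b

instance : LE P := ⟨fun a b => leb a.v b.v = true⟩

theorem le_def (a b : P) : a ≤ b ↔ leb a.v b.v = true := Iff.rfl

instance : PartialOrder P where
  le_refl a := by
    have : ∀ a : Fin 13, leb a a = true := by decide +kernel
    exact this a.v
  le_trans a b c h1 h2 := by
    have : ∀ a b c : Fin 13, leb a b = true → leb b c = true → leb a c = true := by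
      decide +kernel
    exact this _ _ _ h1 h2
  le_antisymm a b h1 h2 := by
    have : ∀ a b : Fin 13, leb a b = true → leb b a = true → a = b := by decide +kernel
    have h := this _ _ h1 h2
    cases a; cases b
    exact congrArg P.mk h

/-- start domains: everything except the point itself -/
def D0 : List ℕ := [8190, 8189, 8187, 8183, 8175, 8159, 8127, 8063, 7935, 7679, 7167, 6143, 4095]

theorem fpp (f : P →o P) : ∃ x, f x = x := by
  by_contra hcon
  push Not at hcon
  let g : ℕ → ℕ := fun i => if h : i < 13 then (f ⟨⟨i, h⟩⟩).v.val else 0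
  have hg : ∀ (i : ℕ) (h : i < 13), g i = (f ⟨⟨i, h⟩⟩).v.val := fun i h => by
    simp only [g, dif_pos h]
  have hgood : H506R2.FPP.Good 13 up dn cov g := by
    constructor
    · intro i hi
      rw [hg i hi]
      exact (f ⟨⟨i, hi⟩⟩).v.isLt
    · intro c hc
      have h1 : ∀ c ∈ cov, c.1 < 13 ∧ c.2 < 13 ∧ c.1 ≠ c.2 ∧ leb c.1 c.2 = true := by
        decide +kernel
      obtain ⟨h1, h2, h3, h4⟩ := h1 c hc
      have h5 : f ⟨⟨c.1, h1⟩⟩ ≤ f ⟨⟨c.2, h2⟩⟩ := f.monotone h4
      have h6 : ∀ a b : Fin 13, leb a b = true → (dn.getD b 0).testBit a = true := by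
        decide +kernel
      refine ⟨h1, h2, h3, ?_, ?_⟩
      · rw [hg _ h1, hg _ h2]
        exact h5
      · rw [hg _ h1, hg _ h2]
        exact h6 _ _ h5
  have hinv : H506R2.FPP.Inv 13 g D0 := by
    refine ⟨by decide, fun x hx => ?_⟩
    have h1 : ∀ x y : Fin 13, y ≠ x → (D0.getD x 0).testBit y = true := by decide +kernel
    rw [hg x hx]
    refine h1 ⟨x, hx⟩ _ fun h => hcon ⟨⟨x, hx⟩⟩ ?_
    generalize f ⟨⟨x, hx⟩⟩ = y at h
    cases y
    exact congrArg P.mk h
  have h := H506R2.FPP.search_sound hgood 3 [7, 12] (by simp) hinv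
  have h' : H506R2.FPP.search 13 up dn cov 3 [7, 12] D0 = true := by decide +kernel
  rw [h'] at h
  exact Bool.noConfusion h

/-- The adjacency of the comparability graph as a Boolean function. -/
def adjb (a b : ℕ) : Bool := (a != b) && (leb a b || leb b a)

theorem adj_iff (a b : P) : (comparabilityGraph P).Adj a b ↔ adjb a.v b.v = true := by
  have hne : a ≠ b ↔ (a.v : ℕ) ≠ b.v := by
    constructor
    · intro h h'
      apply h
      cases a; cases b
      exact congrArg P.mk (Fin.ext h')
    · rintro h rfl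
      exact h rfl
  change (a < b ∨ b < a) ↔ _
  rw [lt_iff_le_and_ne, lt_iff_le_and_ne, le_def, le_def, adjb, Bool.and_eq_true, bne_iff_ne,
    Bool.or_eq_true, ← hne]
  constructor
  · rintro (⟨h1, h2⟩ | ⟨h1, h2⟩)
    · exact ⟨h2, Or.inl h1⟩
    · exact ⟨h2.symm, Or.inr h1⟩
  · rintro ⟨h1, h2 | h2⟩
    · exact Or.inl ⟨h2, h1⟩
    · exact Or.inr ⟨h2, h1.symm⟩

/-- The pairs on which the cocycle is `1`, as bit masks. -/
def wt : List ℕ := [0, 1408, 2560, 4096, 0, 0, 0, 2050, 4098, 4100, 2, 132, 776]

/-- The cocycle. -/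
def wfun (x y : P) : ZMod 2 := if (wt.getD x.v 0).testBit y.v then 1 else 0

theorem hasCocycle : HasCocycle (comparabilityGraph P) := by
  refine ⟨wfun, ?_, ?_⟩
  · intro x y z hxy hyz hxz
    have key : ∀ a b c : Fin 13, (a = b ∨ adjb a b = true) → (b = c ∨ adjb b c = true) →
        (a = c ∨ adjb a c = true) → (if (wt.getD a 0).testBit b then 1 else 0 : ZMod 2) +
        (if (wt.getD b 0).testBit c then 1 else 0) =
        (if (wt.getD a 0).testBit c then 1 else 0) := by
      decide +kernel
    exact key x.v y.v z.v (hxy.imp (congrArg P.v) (adj_iff _ _).1)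
      (hyz.imp (congrArg P.v) (adj_iff _ _).1) (hxz.imp (congrArg P.v) (adj_iff _ _).1)
  · rintro ⟨f, hf⟩
    have h1 := hf ⟨0⟩ ⟨4⟩ (Or.inr ((adj_iff _ _).2 (by decide +kernel)))
    have h2 := hf ⟨4⟩ ⟨1⟩ (Or.inr ((adj_iff _ _).2 (by decide +kernel)))
    have h3 := hf ⟨1⟩ ⟨7⟩ (Or.inr ((adj_iff _ _).2 (by decide +kernel)))
    have h4 := hf ⟨7⟩ ⟨10⟩ (Or.inr ((adj_iff _ _).2 (by decide +kernel)))
    have h5 := hf ⟨10⟩ ⟨0⟩ (Or.inr ((adj_iff _ _).2 (by decide +kernel)))
    have e1 : wfun ⟨0⟩ ⟨4⟩ = 0 := by decide +kernel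
    have e2 : wfun ⟨4⟩ ⟨1⟩ = 0 := by decide +kernel
    have e3 : wfun ⟨1⟩ ⟨7⟩ = 1 := by decide +kernel
    have e4 : wfun ⟨7⟩ ⟨10⟩ = 0 := by decide +kernel
    have e5 : wfun ⟨10⟩ ⟨0⟩ = 0 := by decide +kernel
    rw [e1] at h1
    rw [e2] at h2
    rw [e3] at h3
    rw [e4] at h4
    rw [e5] at h5
    have key : ∀ a b c d e : ZMod 2, 0 = a + b → 0 = b + c → 1 = c + d → 0 = d + e →
        0 = e + a → False := by decide
    exact key _ _ _ _ _ h1 h2 h3 h4 h5

/-- There is a finite nonempty ordered set with the fixed point property such that each iterated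
clique graph of its comparability graph has at least two vertices. -/
theorem result : ∃ (P : Type) (_ : PartialOrder P), Finite P ∧ Nonempty P ∧
    (∀ f : P →o P, ∃ x, f x = x) ∧
    ∀ n : ℕ, Nontrivial (iterClique n ⟨P, comparabilityGraph P⟩).1 := by
  refine ⟨P, inferInstance, ?_, ⟨⟨0⟩⟩, fpp, fun n => (hasCocycle.iter n).nontrivial⟩
  exact Finite.of_injective P.v fun a b h => by
    cases a; cases b
    exact congrArg P.mk h

end Pool.Agent.Results.MP_c7efa6_co.ProjectivePlanePoset
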